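import Pool.Agent.H40.ISH.Stmts

/-!
Project ISH, module IVT: intermediate values.
-/

set_option linter.unusedVariables false

namespace Pool.ISH

open MeasureTheory Filter Topology
open scoped Classical Pointwise

theorem ivt_step (B S : Finset Site) : (symmDiff B S).card ≤ B.card + S.card ∧
    B.card ≤ (symmDiff B S).card + S.card := by
  constructor
  · have h : symmDiff B S ⊆ B ∪ S := by
      intro x hx
      rw [Finset.mem_symmDiff] at hx
      rw [Finset.mem_union]
      tauto
    exact (Finset.card_le_card h).trans (Finset.card_union_le _ _)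
  · have h : B ⊆ symmDiff B S ∪ S := by
      intro x hx
      rw [Finset.mem_union, Finset.mem_symmDiff]
      tauto
    exact (Finset.card_le_card h).trans (Finset.card_union_le _ _)

theorem ivt_disc (f : ℕ → ℕ) (h1 : ∀ k, f (k + 1) ≤ f k + 1) (h2 : ∀ k, f k ≤ f (k + 1) + 1)
    (m n : ℕ) (h : f 0 ≤ n ∧ n ≤ f m ∨ f m ≤ n ∧ n ≤ f 0) : ∃ k ≤ m, f k = n := by
  induction m with
  | zero => exact ⟨0, le_refl _, by omega⟩
  | succ m ih =>
    by_cases h3 : f 0 ≤ n ∧ n ≤ f m ∨ f m ≤ n ∧ n ≤ f 0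
    · obtain ⟨k, hk, hk2⟩ := ih h3
      exact ⟨k, by omega, hk2⟩
    · refine ⟨m + 1, le_refl _, ?_⟩
      have := h1 m
      have := h2 m
      omega

theorem ivt (hseg : SEGStmt) : IVTStmt := by
  intro z a A n h
  obtain ⟨_, h0, h1, h2⟩ := hseg z a
  have e0 : symmDiff A (seg z a 0) = A := by
    rw [h0]
    exact symmDiff_bot A
  have hstep : ∀ k, (symmDiff A (seg z a (k + 1))).card ≤ (symmDiff A (seg z a k)).card + 1 ∧
      (symmDiff A (seg z a k)).card ≤ (symmDiff A (seg z a (k + 1))).card + 1 := by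
    intro k
    obtain ⟨S, hS1, hS2, hS3⟩ := h2 k
    have e : symmDiff A (seg z a (k + 1)) = symmDiff (symmDiff A (seg z a k)) S := by
      rw [hS3, symmDiff_assoc, hS2.symmDiff_eq_sup]
      rfl
    rw [e]
    have h5 := ivt_step (symmDiff A (seg z a k)) S
    constructor
    · exact Nat.le_trans h5.1 (Nat.add_le_add_left hS1 _)
    · exact Nat.le_trans h5.2 (Nat.add_le_add_left hS1 _)
  refine ivt_disc (fun k => (symmDiff A (seg z a k)).card) (fun k => (hstep k).1)
    (fun k => (hstep k).2) (a ^ 3) n ?_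
  have e1 : symmDiff A (seg z a (a ^ 3)) = symmDiff A (cube z a) := by rw [h1]
  change (symmDiff A (seg z a 0)).card ≤ n ∧ n ≤ (symmDiff A (seg z a (a ^ 3))).card ∨
    (symmDiff A (seg z a (a ^ 3))).card ≤ n ∧ n ≤ (symmDiff A (seg z a 0)).card
  rw [e0, e1]
  exact h

end Pool.ISH
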