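import Pool.Agent.H40.ISH.Stmts

/-!
Project ISH, module SEG: initial segments of cubes.
-/

set_option linter.unusedVariables false

namespace Pool.ISH

open MeasureTheory Filter Topology
open scoped Classical Pointwise

noncomputable def sgIdx (z : Site) (a : ℕ) (x : Site) : ℤ :=
  (x 0 - z 0) * (a : ℤ) ^ 2 + (x 1 - z 1) * a + (x 2 - z 2)

theorem sg_mem {z x : Site} {a k : ℕ} :
    x ∈ seg z a k ↔ x ∈ cube z a ∧ sgIdx z a x < k := by
  simp only [seg, sgIdx, Finset.mem_filter]

theorem sgIdx_nonneg {z x : Site} {a : ℕ} (h : x ∈ cube z a) : 0 ≤ sgIdx z a x := by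
  rw [mem_cube] at h
  have h0 := (h 0).1
  have h1 := (h 1).1
  have h2 := (h 2).1
  unfold sgIdx
  have : 0 ≤ (x 0 - z 0) * (a : ℤ) ^ 2 := mul_nonneg (by linarith) (by positivity)
  have : 0 ≤ (x 1 - z 1) * (a : ℤ) := mul_nonneg (by linarith) (by positivity)
  linarith

theorem sgIdx_lt {z x : Site} {a : ℕ} (h : x ∈ cube z a) : sgIdx z a x < (a : ℤ) ^ 3 := by
  rw [mem_cube] at h
  have h0 := (h 0).2
  have h1 := (h 1).2
  have h2 := (h 2).2
  unfold sgIdx
  have ha : (0 : ℤ) ≤ a := by positivity
  have e0 : (x 0 - z 0) * (a : ℤ) ^ 2 ≤ (a - 1) * (a : ℤ) ^ 2 :=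
    mul_le_mul_of_nonneg_right (by linarith) (by positivity)
  have e1 : (x 1 - z 1) * (a : ℤ) ≤ (a - 1) * a :=
    mul_le_mul_of_nonneg_right (by linarith) ha
  nlinarith

theorem sgIdx_mono {z x y : Site} {a : ℕ} (h : ∀ j, y j ≤ x j) :
    sgIdx z a y ≤ sgIdx z a x := by
  unfold sgIdx
  have h0 := h 0
  have h1 := h 1
  have h2 := h 2
  have e0 : (y 0 - z 0) * (a : ℤ) ^ 2 ≤ (x 0 - z 0) * (a : ℤ) ^ 2 :=
    mul_le_mul_of_nonneg_right (by linarith) (by positivity)
  have e1 : (y 1 - z 1) * (a : ℤ) ≤ (x 1 - z 1) * a :=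
    mul_le_mul_of_nonneg_right (by linarith) (by positivity)
  linarith

theorem sg_zero_of {a w t : ℤ} (h : a * t + w = 0) (h1 : -a < w) (h2 : w < a) :
    t = 0 ∧ w = 0 := by
  have ht : t = 0 := by
    by_contra hne
    rcases lt_or_gt_of_ne hne with h3 | h3
    · have : a * t ≤ a * (-1) := mul_le_mul_of_nonneg_left (by omega) (by linarith)
      linarith
    · have : a * 1 ≤ a * t := mul_le_mul_of_nonneg_left (by omega) (by linarith)
      linarith
  subst ht
  exact ⟨rfl, by linarith⟩

theorem sgIdx_inj {z x y : Site} {a : ℕ} (hx : x ∈ cube z a) (hy : y ∈ cube z a)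
    (h : sgIdx z a x = sgIdx z a y) : x = y := by
  rw [mem_cube] at hx hy
  unfold sgIdx at h
  have x0 := hx 0
  have x1 := hx 1
  have x2 := hx 2
  have y0 := hy 0
  have y1 := hy 1
  have y2 := hy 2
  have e : (a : ℤ) * ((a : ℤ) * (x 0 - y 0) + (x 1 - y 1)) + (x 2 - y 2) = 0 := by
    nlinarith
  obtain ⟨e1, e2⟩ := sg_zero_of e (by linarith [x2.1, y2.2]) (by linarith [x2.2, y2.1])
  obtain ⟨e3, e4⟩ := sg_zero_of e1 (by linarith [x1.1, y1.2]) (by linarith [x1.2, y1.1])
  funext i
  fin_cases i
  · change x 0 = y 0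
    linarith
  · change x 1 = y 1
    linarith
  · change x 2 = y 2
    linarith

/-- faces of the cube -/
noncomputable def sgFace (z : Site) (a : ℕ) (i : Fin 3) : Finset Site :=
  Finset.Icc z (Function.update (fun j => z j + a - 1) i (z i))

theorem sgFace_card (z : Site) (a : ℕ) (i : Fin 3) : (sgFace z a i).card = a ^ 2 := by
  unfold sgFace
  rw [Pi.card_Icc]
  simp only [Int.card_Icc, Fin.prod_univ_three]
  fin_cases i <;> simp [Function.update] <;> ring

theorem sgFace_mem {z x : Site} {a : ℕ} {i : Fin 3}
    (h : ∀ j, j ≠ i → z j ≤ x j ∧ x j < z j + a) :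
    Function.update x i (z i) ∈ sgFace z a i := by
  unfold sgFace
  rw [Finset.mem_Icc]
  constructor
  · intro j
    by_cases hj : j = i
    · subst hj
      simp
    · rw [Function.update_of_ne hj]
      exact (h j hj).1
  · intro j
    by_cases hj : j = i
    · subst hj
      simp
    · rw [Function.update_of_ne hj, Function.update_of_ne hj]
      have := (h j hj).2
      change x j ≤ z j + a - 1
      linarith

theorem sg_bd (z : Site) (a k : ℕ) : (bd (seg z a k : Set Site)).ncard ≤ 6 * a ^ 2 := by
  set T : Finset (Fin 3 × Bool × Site) :=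
    ((Finset.univ : Finset (Fin 3)) ×ˢ (Finset.univ : Finset Bool)).biUnion
      (fun p => (sgFace z a p.1).image (fun x => (p.1, p.2, x))) with hT
  have hTc : T.card ≤ 6 * a ^ 2 := by
    rw [hT]
    refine Finset.card_biUnion_le.trans ?_
    have : ∀ p ∈ ((Finset.univ : Finset (Fin 3)) ×ˢ (Finset.univ : Finset Bool)),
        ((sgFace z a p.1).image (fun x => ((p.1, p.2, x) : Fin 3 × Bool × Site))).card ≤
          a ^ 2 := by
      intro p _
      refine Finset.card_image_le.trans ?_
      rw [sgFace_card]
    refine (Finset.sum_le_sum this).trans ?_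
    simp
  have hmaps : ∀ b ∈ bd (seg z a k : Set Site),
      ((b.2, decide (lo b ∈ seg z a k), Function.update (lo b) b.2 (z b.2)) :
        Fin 3 × Bool × Site) ∈ (T : Set (Fin 3 × Bool × Site)) := by
    intro b hb
    rw [hT]
    simp only [Finset.mem_coe, Finset.mem_biUnion, Finset.mem_product, Finset.mem_univ,
      true_and, and_self, Finset.mem_image]
    refine ⟨(b.2, decide (lo b ∈ seg z a k)), Function.update (lo b) b.2 (z b.2), ?_, rfl⟩
    refine sgFace_mem ?_
    intro j hj
    rw [mem_bd] at hb
    by_cases h1 : lo b ∈ seg z a k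
    · exact mem_cube.1 (sg_mem.1 h1).1 j
    · have h2 : hi b ∈ seg z a k := by
        by_contra h3
        exact hb ⟨fun h4 => absurd h4 h1, fun h4 => absurd h4 h3⟩
      have h3 := mem_cube.1 (sg_mem.1 h2).1 j
      rw [hi_ne hj] at h3
      exact h3
  have hinj : Set.InjOn (fun b : Bond => ((b.2, decide (lo b ∈ seg z a k),
      Function.update (lo b) b.2 (z b.2)) : Fin 3 × Bool × Site))
      (bd (seg z a k : Set Site)) := by
    have key : ∀ b c : Bond, b ∈ bd (seg z a k : Set Site) → c ∈ bd (seg z a k : Set Site) →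
        b.2 = c.2 → (lo b ∈ seg z a k ↔ lo c ∈ seg z a k) →
        (∀ j, j ≠ b.2 → lo b j = lo c j) → lo b b.2 < lo c b.2 → False := by
      intro b c hb hc h2 hs hl hlt
      rw [mem_bd] at hb hc
      by_cases h1 : lo b ∈ seg z a k
      · have h3 : lo c ∈ seg z a k := hs.1 h1
        have h4 : hi b ∉ seg z a k := fun h5 => hb ⟨fun _ => h5, fun _ => h1⟩
        apply h4
        rw [sg_mem]
        have hle : ∀ j, hi b j ≤ lo c j := by
          intro j
          by_cases hj : j = b.2
          · subst hj
            rw [hi_same]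
            omega
          · rw [hi_ne hj, hl j hj]
        have hge : ∀ j, lo b j ≤ hi b j := by
          intro j
          rw [hi_apply]
          have := ev_le b.2 j
          linarith
        rw [sg_mem] at h1 h3
        refine ⟨?_, (sgIdx_mono hle).trans_lt h3.2⟩
        rw [mem_cube] at *
        intro j
        exact ⟨(h1.1 j).1.trans (hge j), (hle j).trans_lt (h3.1 j).2⟩
      · have h3 : lo c ∉ seg z a k := fun h5 => h1 (hs.2 h5)
        have h4 : hi b ∈ seg z a k := by
          by_contra h5
          exact hb ⟨fun h6 => absurd h6 h1, fun h6 => absurd h6 h5⟩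
        have h6 : hi c ∈ seg z a k := by
          by_contra h5
          exact hc ⟨fun h6 => absurd h6 h3, fun h6 => absurd h6 h5⟩
        apply h3
        rw [sg_mem]
        have hle : ∀ j, lo c j ≤ hi c j := by
          intro j
          rw [hi_apply]
          have := ev_le c.2 j
          linarith
        have hge : ∀ j, hi b j ≤ lo c j := by
          intro j
          by_cases hj : j = b.2
          · subst hj
            rw [hi_same]
            omega
          · rw [hi_ne hj, hl j hj]
        rw [sg_mem] at h4 h6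
        refine ⟨?_, (sgIdx_mono hle).trans_lt h6.2⟩
        rw [mem_cube] at *
        intro j
        exact ⟨(h4.1 j).1.trans (hge j), (hle j).trans_lt (h6.1 j).2⟩
    intro b hb c hc hbc
    simp only [Prod.mk.injEq] at hbc
    obtain ⟨h1, h2, h3⟩ := hbc
    have h2' : (lo b ∈ seg z a k ↔ lo c ∈ seg z a k) := by
      by_cases hb1 : lo b ∈ seg z a k <;> by_cases hc1 : lo c ∈ seg z a k <;>
        simp_all
    have h4 : ∀ j, j ≠ b.2 → lo b j = lo c j := by
      intro j hj
      have h5 := congrFun h3 j
      rw [Function.update_of_ne hj, Function.update_of_ne (by rw [← h1]; exact hj)] at h5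
      exact h5
    have h5 : lo b b.2 = lo c b.2 := by
      rcases lt_trichotomy (lo b b.2) (lo c b.2) with h | h | h
      · exact (key b c hb hc h1 h2' h4 h).elim
      · exact h
      · refine (key c b hc hb h1.symm h2'.symm ?_ ?_).elim
        · intro j hj
          exact (h4 j (by rw [h1]; exact hj)).symm
        · rw [← h1]
          exact h
    have h6 : lo b = lo c := by
      funext j
      by_cases hj : j = b.2
      · subst hj
        exact h5
      · exact h4 j hj
    exact Prod.ext h6 h1
  have h := Set.ncard_le_ncard_of_injOn _ hmaps hinj (Finset.finite_toSet T)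
  rw [Set.ncard_coe_finset] at h
  exact h.trans hTc

theorem seg_ok : SEGStmt := by
  intro z a
  refine ⟨sg_bd z a, ?_, ?_, ?_⟩
  · rw [Finset.eq_empty_iff_forall_notMem]
    intro x hx
    rw [sg_mem] at hx
    have := sgIdx_nonneg hx.1
    have h2 := hx.2
    push_cast at h2
    linarith
  · ext x
    rw [sg_mem]
    constructor
    · exact fun h => h.1
    · intro h
      refine ⟨h, ?_⟩
      have := sgIdx_lt h
      push_cast
      exact this
  · intro k
    refine ⟨(cube z a).filter (fun x => sgIdx z a x = k), ?_, ?_, ?_⟩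
    · rw [Finset.card_le_one]
      intro x hx y hy
      rw [Finset.mem_filter] at hx hy
      exact sgIdx_inj hx.1 hy.1 (by rw [hx.2, hy.2])
    · rw [Finset.disjoint_left]
      intro x hx hx2
      rw [sg_mem] at hx
      rw [Finset.mem_filter] at hx2
      have := hx.2
      rw [hx2.2] at this
      exact lt_irrefl _ this
    · ext x
      rw [Finset.mem_union, sg_mem, sg_mem, Finset.mem_filter]
      constructor
      · rintro ⟨h1, h2⟩
        push_cast at h2
        rcases lt_or_eq_of_le (Int.lt_add_one_iff.1 h2) with h3 | h3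
        · exact Or.inl ⟨h1, h3⟩
        · exact Or.inr ⟨h1, h3⟩
      · rintro (⟨h1, h2⟩ | ⟨h1, h2⟩)
        · refine ⟨h1, ?_⟩
          push_cast
          linarith
        · refine ⟨h1, ?_⟩
          push_cast
          linarith

end Pool.ISH
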