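import Pool.Agent.H40.ISH.Stmts

/-!
Project ISH, module TIL: the tiling of the box.
-/

set_option linter.unusedVariables false

namespace Pool.ISH

open MeasureTheory Filter Topology
open scoped Classical Pointwise

theorem til_mem {N l : ℕ} {z : Site} :
    z ∈ tiles N l ↔ z ∈ Vb N ∧ cube z l ⊆ Vb N ∧ ∀ i, (l : ℤ) ∣ z i := by
  simp only [tiles, Finset.mem_filter]

theorem til_disj {N l : ℕ} (hl : 1 ≤ l) : ∀ z ∈ tiles N l, ∀ z' ∈ tiles N l, z ≠ z' →
    Disjoint (cube z l) (cube z' l) := by
  intro z hz z' hz' hne
  rw [til_mem] at hz hz'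
  rw [Finset.disjoint_left]
  intro x hx hx'
  apply hne
  funext i
  have h1 := mem_cube.1 hx i
  have h2 := mem_cube.1 hx' i
  obtain ⟨u, hu⟩ := hz.2.2 i
  obtain ⟨v, hv⟩ := hz'.2.2 i
  rw [hu] at h1
  rw [hv] at h2
  have hl' : (0 : ℤ) < l := by exact_mod_cast hl
  have h3 : u = v := by
    rcases lt_trichotomy u v with h | h | h
    · exfalso
      have : (l : ℤ) * (u + 1) ≤ l * v := mul_le_mul_of_nonneg_left (by omega) hl'.le
      linarith [h1.2, h2.1]
    · exact h
    · exfalso
      have : (l : ℤ) * (v + 1) ≤ l * u := mul_le_mul_of_nonneg_left (by omega) hl'.le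
      linarith [h2.2, h1.1]
  rw [hu, hv, h3]

/-- slabs -/
noncomputable def tilA (N l : ℕ) (i : Fin 3) : Finset Site :=
  Finset.Icc (fun _ => (-N : ℤ)) (Function.update (fun _ => (N : ℤ)) i (-N + l - 1))

noncomputable def tilB (N l : ℕ) (i : Fin 3) : Finset Site :=
  Finset.Icc (Function.update (fun _ => (-N : ℤ)) i (N - l + 1)) (fun _ => (N : ℤ))

theorem tilA_card (N l : ℕ) (i : Fin 3) : (tilA N l i).card = l * (2 * N + 1) ^ 2 := by
  unfold tilA
  rw [Pi.card_Icc]
  simp only [Int.card_Icc, Fin.prod_univ_three]
  have e1 : (-(N : ℤ) + l - 1 + 1 - -N).toNat = l := by omega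
  have e2 : ((N : ℤ) + 1 - -N).toNat = 2 * N + 1 := by omega
  have e3 : ((N : ℤ) + 1 + N).toNat = 2 * N + 1 := by omega
  fin_cases i <;> simp [Function.update, e3] <;> ring

theorem tilB_card (N l : ℕ) (i : Fin 3) : (tilB N l i).card = l * (2 * N + 1) ^ 2 := by
  unfold tilB
  rw [Pi.card_Icc]
  simp only [Int.card_Icc, Fin.prod_univ_three]
  have e1 : ((N : ℤ) + 1 - (N - l + 1)).toNat = l := by omega
  have e2 : ((N : ℤ) + 1 - -N).toNat = 2 * N + 1 := by omega
  have e3 : ((N : ℤ) + 1 + N).toNat = 2 * N + 1 := by omega
  fin_cases i <;> simp [Function.update, e3] <;> ring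

theorem til : TILStmt := by
  intro N l hl
  refine ⟨til_disj hl, ?_, ?_⟩
  · have h1 : ((tiles N l).biUnion (fun z => cube z l)).card = (tiles N l).card * l ^ 3 := by
      rw [Finset.card_biUnion (til_disj hl)]
      simp [card_cube]
    rw [← h1, ← card_Vb N]
    refine Finset.card_le_card ?_
    intro x hx
    rw [Finset.mem_biUnion] at hx
    obtain ⟨z, hz, hx⟩ := hx
    exact (til_mem.1 hz).2.1 hx
  · have hsub : Vb N ⊆ ((tiles N l).biUnion (fun z => cube z l)) ∪
        (Finset.univ.biUnion (fun i => tilA N l i)) ∪
          (Finset.univ.biUnion (fun i => tilB N l i)) := by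
      intro x hx
      have hl' : (0 : ℤ) < l := by exact_mod_cast hl
      by_cases hz : (fun i => (l : ℤ) * (x i / l)) ∈ tiles N l
      · rw [Finset.mem_union, Finset.mem_union]
        left; left
        rw [Finset.mem_biUnion]
        refine ⟨_, hz, ?_⟩
        rw [mem_cube]
        intro i
        have h1 := Int.mul_ediv_add_emod (x i) l
        have h2 := Int.emod_nonneg (x i) hl'.ne'
        have h3 := Int.emod_lt_of_pos (x i) hl'
        change (l : ℤ) * (x i / l) ≤ x i ∧ x i < (l : ℤ) * (x i / l) + l
        constructor <;> linarith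
      · have hz2 : ∃ i, ((l : ℤ) * (x i / l) < -N ∨ (N : ℤ) < (l : ℤ) * (x i / l) + l - 1) := by
          by_contra hcon
          push Not at hcon
          apply hz
          have hsubc : cube (fun i => (l : ℤ) * (x i / l)) l ⊆ Vb N := by
            intro y hy
            rw [mem_Vb]
            intro i
            have h1 := mem_cube.1 hy i
            have h2 := hcon i
            rw [abs_le]
            constructor
            · linarith [h1.1, h2.1]
            · have h3 := h1.2
              have h4 := h2.2
              change y i < (l : ℤ) * (x i / l) + l at h3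
              linarith
          rw [til_mem]
          refine ⟨hsubc ?_, hsubc, fun i => dvd_mul_right _ _⟩
          rw [mem_cube]
          intro i
          constructor
          · exact le_refl _
          · linarith
        obtain ⟨i, hi⟩ := hz2
        have h1 := Int.mul_ediv_add_emod (x i) l
        have h2 := Int.emod_nonneg (x i) hl'.ne'
        have h3 := Int.emod_lt_of_pos (x i) hl'
        have h4 := fun j => abs_le.1 (mem_Vb.1 hx j)
        rcases hi with hi | hi
        · rw [Finset.mem_union, Finset.mem_union]
          left; right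
          rw [Finset.mem_biUnion]
          refine ⟨i, Finset.mem_univ _, ?_⟩
          unfold tilA
          rw [Finset.mem_Icc]
          refine ⟨fun j => (h4 j).1, fun j => ?_⟩
          by_cases hj : j = i
          · subst hj
            rw [Function.update_self]
            linarith
          · rw [Function.update_of_ne hj]
            exact (h4 j).2
        · rw [Finset.mem_union]
          right
          rw [Finset.mem_biUnion]
          refine ⟨i, Finset.mem_univ _, ?_⟩
          unfold tilB
          rw [Finset.mem_Icc]
          refine ⟨fun j => ?_, fun j => (h4 j).2⟩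
          by_cases hj : j = i
          · subst hj
            rw [Function.update_self]
            linarith
          · rw [Function.update_of_ne hj]
            exact (h4 j).1
    have hc := Finset.card_le_card hsub
    rw [card_Vb] at hc
    refine hc.trans ((Finset.card_union_le _ _).trans ?_)
    have hA : (Finset.univ.biUnion (fun i => tilA N l i)).card ≤ 3 * (l * (2 * N + 1) ^ 2) := by
      refine Finset.card_biUnion_le.trans ?_
      simp [tilA_card]
    have hB : (Finset.univ.biUnion (fun i => tilB N l i)).card ≤ 3 * (l * (2 * N + 1) ^ 2) := by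
      refine Finset.card_biUnion_le.trans ?_
      simp [tilB_card]
    have h1 : ((tiles N l).biUnion (fun z => cube z l)).card ≤ (tiles N l).card * l ^ 3 := by
      refine Finset.card_biUnion_le.trans ?_
      simp [card_cube]
    have hU := Finset.card_union_le ((tiles N l).biUnion (fun z => cube z l))
      (Finset.univ.biUnion (fun i => tilA N l i))
    have e : 6 * l * (2 * N + 1) ^ 2 = 3 * (l * (2 * N + 1) ^ 2) + 3 * (l * (2 * N + 1) ^ 2) := by
      ring
    rw [e]
    omega

end Pool.ISH
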